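import Mathlib
import Pool.Agent.H84.VH.C

/-!
# Linear relations between two disjoint sets of forms, and the places of a given type
-/

set_option autoImplicit false

open NumberField Height Finset LinearAlgebra.Projectivization
open scoped Classical

namespace Pool.Agent.H84.VJ

open Pool.Agent.H57R3.VJ Pool.Agent.H84.VH

section
variable {K : Type*} [Field K] {n r : ℕ}

/-- finitely many linear relations detect the sum of two strata -/
theorem relations2 (a : Fin r → Fin (n + 1) → K) (A I : Finset (Fin r)) :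
    ∃ s : Finset (Fin (n + 1) → K),
      (∀ b ∈ s, (∃ c : Fin r → K, b = ∑ i ∈ I, c i • a i) ∧ ∃ d : Fin r → K, b = ∑ i ∈ A, d i • a i) ∧
      ∀ x, (∀ b ∈ s, lin b x = 0) → ∃ y z, x = y + z ∧ (∀ i ∈ A, lin (a i) y = 0) ∧
        ∀ i ∈ I, lin (a i) z = 0 := by
  set W : Submodule K (Fin (n + 1) → K) :=
    Submodule.span K (Set.range fun i : A => a i) ⊓
      Submodule.span K (Set.range fun i : I => a i) with hW
  have hcomb : ∀ (B : Finset (Fin r)) (b : Fin (n + 1) → K),
      b ∈ Submodule.span K (Set.range fun i : B => a i) → ∃ c : Fin r → K, b = ∑ i ∈ B, c i • a i := by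
    intro B b hb
    rw [Submodule.mem_span_range_iff_exists_fun] at hb
    obtain ⟨c, hc⟩ := hb
    refine ⟨fun i => if h : i ∈ B then c ⟨i, h⟩ else 0, ?_⟩
    rw [← hc, ← sum_coe_sort B]
    apply sum_congr rfl
    intro i _
    simp
  have hmem : ∀ (B : Finset (Fin r)) (c : Fin r → K),
      ∑ i ∈ B, c i • a i ∈ Submodule.span K (Set.range fun i : B => a i) := by
    intro B c
    apply Submodule.sum_mem
    intro i hi
    exact Submodule.smul_mem _ _ (Submodule.subset_span ⟨⟨i, hi⟩, rfl⟩)
  obtain ⟨s, hs⟩ : W.FG := IsNoetherian.noetherian W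
  refine ⟨s, ?_, ?_⟩
  · intro b hb
    have hbW : b ∈ W := hs ▸ Submodule.subset_span hb
    exact ⟨hcomb _ b hbW.2, hcomb _ b hbW.1⟩
  · intro x hx
    have hxW : ∀ b ∈ W, lin b x = 0 := by
      intro b hb
      rw [← hs] at hb
      induction hb using Submodule.span_induction with
      | mem b hb => exact hx b hb
      | zero => simp [lin]
      | add b b' _ _ h1 h2 => simp only [lin, Pi.add_apply, add_mul, sum_add_distrib] at *; rw [h1, h2, add_zero]
      | smul c b _ h1 =>
        simp only [lin, Pi.smul_apply, smul_eq_mul, mul_assoc, ← mul_sum] at *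
        rw [h1, mul_zero]
    set U : Submodule K (Fin (n + 1) → K) := ⨅ i : A, LinearMap.ker (linM (a i)) with hU
    set V : Submodule K (Fin (n + 1) → K) :=
      ⨅ i : I, LinearMap.ker (linM (a i)) with hV
    have hxUV : x ∈ U ⊔ V := by
      by_contra hne
      obtain ⟨φ, hφ1, hφ2⟩ := Submodule.exists_dual_map_eq_bot_of_notMem hne inferInstance
      obtain ⟨b, rfl⟩ := exists_form φ
      have hker : ∀ y ∈ U ⊔ V, lin b y = 0 := by
        intro y hy
        have : linM b y ∈ (U ⊔ V).map (linM b) := Submodule.mem_map_of_mem hy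
        rw [hφ2, Submodule.mem_bot] at this
        exact this
      apply hφ1
      apply hxW
      refine ⟨?_, ?_⟩
      · obtain ⟨d, hd⟩ := comb_of_ker a A b (fun y hy => hker y (Submodule.mem_sup_left (by
          rw [hU, Submodule.mem_iInf]
          intro i
          exact hy i i.2)))
        rw [hd]
        exact hmem A d
      · obtain ⟨d, hd⟩ := comb_of_ker a I b (fun y hy => hker y (Submodule.mem_sup_right (by
          rw [hV, Submodule.mem_iInf]
          intro i
          exact hy i i.2)))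
        rw [hd]
        exact hmem I d
    obtain ⟨y, hy, z, hz, hyz⟩ := Submodule.mem_sup.1 hxUV
    refine ⟨y, z, hyz.symm, ?_, ?_⟩
    · intro i hi
      rw [hU, Submodule.mem_iInf] at hy
      exact hy ⟨i, hi⟩
    · intro i hi
      rw [hV, Submodule.mem_iInf] at hz
      exact hz ⟨i, hi⟩

end

variable {K : Type*} [Field K] [NumberField K] {n r : ℕ}

/-- **The number of possible sets of places of type `A`**, if the forms with index in `I` are units
outside `Q` and some relation does not vanish. -/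
theorem step2 (a : Fin r → Fin (n + 1) → K) (ha0 : ∀ i, a i ≠ 0) (S0 : Finset (FinitePlace K))
    (hs1 : ∀ v ∉ S0, ∀ i, sv v (a i) = 1) (A I : Finset (Fin r))
    (hI : I.Nonempty) (hIA : Disjoint I A)
    (s : Finset (Fin (n + 1) → K)) (c d : (Fin (n + 1) → K) → Fin r → K)
    (hc : ∀ b ∈ s, b = ∑ i ∈ I, c b i • a i) (hd : ∀ b ∈ s, b = ∑ i ∈ A, d b i • a i)
    (hdS : ∀ v ∉ S0, ∀ b ∈ s, ∀ i, v (d b i) ≤ 1) {δ : ℝ} (hδ : 0 < δ) :
    ∃ C : ℝ, 1 ≤ C ∧ ∀ B : ℝ, 1 ≤ B → ∀ Q : Finset (FinitePlace K),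
      ∀ PP : Finset (ℙ K (Fin (n + 1) → K)), (∀ P ∈ PP, (∀ i, lin (a i) P.rep ≠ 0) ∧
        mulHeight P.rep ≤ B ∧ (∀ v ∉ Q, ∀ i ∈ I, v (lin (a i) P.rep) = sv v P.rep) ∧
        ∃ b ∈ s, lin b P.rep ≠ 0) →
      ((PP.image fun P => GG a S0 A P.rep).card : ℝ) ≤ (C * B ^ δ * (∏ v ∈ Q, NN v) ^ δ) ^ (r + 1) := by
  obtain ⟨C1, hC1, h1⟩ := supp_card (K := K) hδ
  obtain ⟨C2, hC2, h2⟩ := two_pow_le (K := K) hδ
  obtain ⟨i0, hi0⟩ := hI
  have hi0' : i0 ∉ A := Finset.disjoint_left.1 hIA hi0
  obtain ⟨D1, hD1, hDa⟩ := heights (K := K) (n := n) (univ : Finset (Fin r)) (univ : Finset (Fin r)) a a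
  obtain ⟨D2, hD2, hDb⟩ := heights (K := K) (n := n) s (univ : Finset (Fin r)) id a
  set D : ℝ := max D1 D2 with hD
  have hD' : 1 ≤ D := hD1.trans (le_max_left _ _)
  set C3 : ℝ := max (C1 * D ^ δ) (max (C2 * D ^ δ) 1) with hC3
  have hC31 : 1 ≤ C3 := (le_max_right _ _).trans (le_max_right _ _)
  refine ⟨C3, hC31, fun B hB Q PP hPP => ?_⟩
  have hNQ : 1 ≤ ∏ v ∈ Q, NN v := Finset.one_le_prod fun v _ => by linarith [two_le_NN v]
  have hBδ : 1 ≤ B ^ δ := Real.one_le_rpow hB hδ.le
  have hQδ : 1 ≤ (∏ v ∈ Q, NN v) ^ δ := Real.one_le_rpow hNQ hδ.le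
  set X : ℝ := C3 * B ^ δ * (∏ v ∈ Q, NN v) ^ δ with hX
  have hX1 : 1 ≤ X := by
    have : 1 ≤ C3 * B ^ δ := by nlinarith
    nlinarith
  -- the tuples of ratios
  set f : ℙ K (Fin (n + 1) → K) → I → K :=
    fun P i => lin (a i) P.rep / lin (a i0) P.rep with hf
  have hU : ∀ i : I, ((PP.image fun P => f P i).card : ℝ) ≤ X := by
    intro i
    have hi : (i : Fin r) ∈ I := i.2
    have := h1 (D * B) (by nlinarith) Q (PP.image fun P => f P i) (by
      intro u hu
      obtain ⟨P, hP, rfl⟩ := mem_image.1 hu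
      obtain ⟨g1, g2, g3, _⟩ := hPP P hP
      refine ⟨div_ne_zero (g1 _) (g1 _), ?_, ?_⟩
      · refine (hDa i (mem_univ _) i0 (mem_univ _) P.rep).trans ?_
        exact mul_le_mul (le_max_left _ _) g2 (by positivity) (by linarith)
      · intro v hv
        rw [hf]
        simp only
        rw [map_div₀, g3 v hv i hi, g3 v hv i0 hi0]
        exact div_self (sv_pos v P.rep_nonzero).ne')
    rw [Real.mul_rpow (by linarith) (by linarith), ← mul_assoc] at this
    refine this.trans ?_
    rw [hX]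
    apply mul_le_mul_of_nonneg_right _ (by positivity)
    apply mul_le_mul_of_nonneg_right _ (by positivity)
    exact le_max_left _ _
  have hfcard : ((PP.image f).card : ℝ) ≤ X ^ r := by
    have hsub : PP.image f ⊆ Fintype.piFinset fun i : I => PP.image fun P => f P i := by
      intro u hu
      obtain ⟨P, hP, rfl⟩ := mem_image.1 hu
      rw [Fintype.mem_piFinset]
      intro i
      exact mem_image_of_mem _ hP
    calc ((PP.image f).card : ℝ) ≤ ((Fintype.piFinset fun i : I => PP.image fun P => f P i).card : ℝ) := by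
          exact_mod_cast card_le_card hsub
      _ = ∏ i : I, ((PP.image fun P => f P i).card : ℝ) := by
          rw [Fintype.card_piFinset, Nat.cast_prod]
      _ ≤ ∏ _i : I, X := by
          apply prod_le_prod
          · intro i _; exact Nat.cast_nonneg _
          · intro i _; exact hU i
      _ = X ^ I.card := by rw [Finset.prod_const, card_univ, Fintype.card_coe]
      _ ≤ X ^ r := by
          apply pow_le_pow_right₀ hX1
          exact (card_le_univ _).trans (by rw [Fintype.card_fin])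
  -- the fibres
  have hfib : ∀ u ∈ PP.image f, (((PP.filter fun P => f P = u).image fun P => GG a S0 A P.rep).card : ℝ) ≤ X := by
    intro u hu
    obtain ⟨P0, hP0, rfl⟩ := mem_image.1 hu
    obtain ⟨g1, g2, g3, b, hb, hb0⟩ := hPP P0 hP0
    have hval : ∀ P ∈ PP, f P = f P0 → lin b P.rep / lin (a i0) P.rep = lin b P0.rep / lin (a i0) P0.rep := by
      intro P hP hPf
      have e : ∀ P : ℙ K (Fin (n + 1) → K), lin b P.rep / lin (a i0) P.rep =
          ∑ i : I, c b i * f P i := by
        intro P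
        conv_lhs => rw [hc b hb]
        rw [lin_sum, sum_div, ← sum_coe_sort I]
        apply sum_congr rfl
        intro i _
        rw [hf]
        simp only
        rw [mul_div_assoc]
      rw [e, e, hPf]
    set w : K := lin b P0.rep / lin (a i0) P0.rep with hw
    have hw0 : w ≠ 0 := div_ne_zero hb0 (g1 i0)
    have hwh : mulHeight₁ w ≤ D * B := by
      refine (hDb b hb i0 (mem_univ _) P0.rep).trans ?_
      exact mul_le_mul (le_max_right _ _) g2 (by positivity) (by linarith)
    have hZfin : {v : FinitePlace K | v w < 1}.Finite := by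
      refine (FinitePlace.hasFiniteMulSupport hw0).subset ?_
      intro v hv
      rw [Function.mem_mulSupport]
      exact ne_of_lt hv
    have hsub : ((PP.filter fun P => f P = f P0).image fun P => GG a S0 A P.rep) ⊆ hZfin.toFinset.powerset := by
      intro G hG
      obtain ⟨P, hP, rfl⟩ := mem_image.1 hG
      obtain ⟨hP1, hP2⟩ := mem_filter.1 hP
      obtain ⟨k1, k2, k3, _⟩ := hPP P hP1
      rw [mem_powerset]
      intro v hv
      rw [Set.Finite.mem_toFinset]
      show v w < 1
      unfold GG at hv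
      rw [mem_filter, mem_sdiff, mem_pl ha0 P.rep_nonzero k1] at hv
      obtain ⟨⟨_, hvS⟩, hvA⟩ := hv
      have hvi : ∀ i ∈ A, v (lin (a i) P.rep) < sv v P.rep := by
        intro i hi
        rw [← hvA] at hi
        unfold tp at hi
        have := (mem_filter.1 hi).2
        unfold Meets at this
        rwa [hs1 v hvS i, one_mul] at this
      have hv0 : v (lin (a i0) P.rep) = sv v P.rep := by
        apply not_meets (hs1 v hvS i0)
        intro hm
        apply hi0'
        rw [← hvA]
        unfold tp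
        exact mem_filter.2 ⟨mem_univ _, hm⟩
      rw [← hval P hP1 hP2, map_div₀, hv0, div_lt_one (sv_pos v P.rep_nonzero)]
      conv_lhs => rw [hd b hb]
      rw [lin_sum]
      apply sum_lt_v v _ _ (sv_pos v P.rep_nonzero)
      intro i hi
      rw [map_mul]
      calc v (d b i) * v (lin (a i) P.rep) ≤ 1 * v (lin (a i) P.rep) :=
            mul_le_mul_of_nonneg_right (hdS v hvS b hb i) (apply_nonneg _ _)
        _ = v (lin (a i) P.rep) := one_mul _
        _ < _ := hvi i hi
    calc (((PP.filter fun P => f P = f P0).image fun P => GG a S0 A P.rep).card : ℝ) ≤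
        (hZfin.toFinset.powerset.card : ℝ) := by exact_mod_cast card_le_card hsub
      _ = (2 : ℝ) ^ hZfin.toFinset.card := by rw [card_powerset]; push_cast; rfl
      _ ≤ C2 * mulHeight₁ w ^ δ := h2 w hw0 _ (fun v hv => by simpa using hv)
      _ ≤ C2 * (D * B) ^ δ := by
          apply mul_le_mul_of_nonneg_left _ (by linarith)
          exact Real.rpow_le_rpow (by positivity) hwh hδ.le
      _ = C2 * D ^ δ * B ^ δ * 1 := by rw [Real.mul_rpow (by linarith) (by linarith)]; ring
      _ ≤ C3 * B ^ δ * (∏ v ∈ Q, NN v) ^ δ := by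
          apply mul_le_mul _ hQδ zero_le_one (by positivity)
          apply mul_le_mul_of_nonneg_right _ (by positivity)
          exact (le_max_left _ _).trans (le_max_right _ _)
      _ = X := rfl
  have := card_image_le_fibers PP f (fun P => GG a S0 A P.rep) X hfib
  refine this.trans ?_
  rw [pow_succ]
  exact mul_le_mul_of_nonneg_right hfcard (by linarith)


/-- relations with coefficients, for all pairs of sets of indices -/
lemma all_relations2 {K : Type*} [Field K] {n r : ℕ} (a : Fin r → Fin (n + 1) → K) (A I : Finset (Fin r)) :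
    ∃ (s : Finset (Fin (n + 1) → K)) (c d : (Fin (n + 1) → K) → Fin r → K),
      (∀ b ∈ s, b = ∑ i ∈ I, c b i • a i) ∧ (∀ b ∈ s, b = ∑ i ∈ A, d b i • a i) ∧
      ∀ x, (∀ b ∈ s, lin b x = 0) → ∃ y z, x = y + z ∧ (∀ i ∈ A, lin (a i) y = 0) ∧
        ∀ i ∈ I, lin (a i) z = 0 := by
  obtain ⟨s, h1, h2⟩ := relations2 a A I
  have hc : ∀ b : Fin (n + 1) → K, ∃ c : Fin r → K, b ∈ s → b = ∑ i ∈ I, c i • a i := by
    intro b
    by_cases hb : b ∈ s
    · obtain ⟨c, hc⟩ := (h1 b hb).1
      exact ⟨c, fun _ => hc⟩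
    · exact ⟨0, fun h => absurd h hb⟩
  have hd : ∀ b : Fin (n + 1) → K, ∃ d : Fin r → K, b ∈ s → b = ∑ i ∈ A, d i • a i := by
    intro b
    by_cases hb : b ∈ s
    · obtain ⟨d, hd⟩ := (h1 b hb).2
      exact ⟨d, fun _ => hd⟩
    · exact ⟨0, fun h => absurd h hb⟩
  choose c hc using hc
  choose d hd using hd
  exact ⟨s, c, d, hc, hd, h2⟩

/-- `x` is on a hyperplane which is the join of two complementary strata of `n + 2` of the forms -/
def Spec (a : Fin r → Fin (n + 1) → K) (x : Fin (n + 1) → K) : Prop :=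
  ∃ (A I : Finset (Fin r)) (y z : Fin (n + 1) → K), A.Nonempty ∧ I.Nonempty ∧ Disjoint A I ∧
    A.card + I.card = n + 2 ∧ x = y + z ∧ (∀ i ∈ A, lin (a i) y = 0) ∧ ∀ i ∈ I, lin (a i) z = 0

lemma exists_rel2 {a : Fin r → Fin (n + 1) → K} {A I : Finset (Fin r)} (hA : A.Nonempty)
    (hI : I.Nonempty) (hIA : Disjoint A I) (hc : A.card + I.card = n + 2) {s : Finset (Fin (n + 1) → K)}
    (hs : ∀ x, (∀ b ∈ s, lin b x = 0) → ∃ y z, x = y + z ∧ (∀ i ∈ A, lin (a i) y = 0) ∧
        ∀ i ∈ I, lin (a i) z = 0) {x : Fin (n + 1) → K}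
    (hx : ¬ Spec a x) : ∃ b ∈ s, lin b x ≠ 0 := by
  by_contra hne
  push Not at hne
  obtain ⟨y, z, h1, h2, h3⟩ := hs x hne
  exact hx ⟨A, I, y, z, hA, hI, hIA, hc, h1, h2, h3⟩

end Pool.Agent.H84.VJ
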