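import Mathlib
import Pool.Agent.H84.VJ.A
import Pool.Agent.H84.VH.D

/-!
# The order of the forms, and the places which cost nothing
-/

set_option autoImplicit false

open NumberField Height Finset LinearAlgebra.Projectivization
open scoped Classical

namespace Pool.Agent.H84.VJ

open Pool.Agent.H57R3.VJ Pool.Agent.H84.VH

/-- the proportion of the sets of `n + 2 - k` indices which are disjoint from a given set of `k` indices -/
noncomputable def share (n r k : ℕ) : ℝ :=
  ((r - k).choose (n + 2 - k) : ℝ) / (r.choose (n + 2 - k) : ℝ)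

/-- an order of the indices which is good on average: `g` is a cost function of initial segments -/
theorem exists_order {r : ℕ} (g : Finset (Fin r) → ℝ) :
    ∃ l : List (Fin r), l.Nodup ∧ l.toFinset = univ ∧
      ∑ k ∈ range r, g (l.take k).toFinset ≤
        ∑ T ∈ (univ : Finset (Finset (Fin r))).erase univ, g T / (r.choose T.card : ℝ) := by
  obtain ⟨l, h1, h2, h3⟩ := exists_chain (α := Fin r) (fun T => - g Tᶜ) r univ (by simp)
  refine ⟨l, h1, h2, ?_⟩
  have hlen : l.length = r := by
    rw [← List.toFinset_card_of_nodup h1, h2, card_univ, Fintype.card_fin]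
  have e1 : ∑ k ∈ range l.length, - g ((l.drop k).toFinset)ᶜ = - ∑ k ∈ range r, g (l.take k).toFinset := by
    rw [hlen, ← sum_neg_distrib]
    apply sum_congr rfl
    intro k _
    congr 2
    ext i
    rw [mem_compl, List.mem_toFinset, List.mem_toFinset]
    have h4 : i ∈ l := by
      have : i ∈ l.toFinset := h2 ▸ mem_univ i
      exact List.mem_toFinset.1 this
    have h5 : i ∈ l.take k ∨ i ∈ l.drop k := by
      rw [← List.mem_append, List.take_append_drop]; exact h4
    have h6 := List.disjoint_take_drop h1 (le_refl k)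
    constructor
    · intro h; exact h5.resolve_right h
    · intro h h'; exact h6 h h'
  have e2 : ∑ T ∈ (univ : Finset (Fin r)).powerset.erase ∅, (- g Tᶜ) / (r.choose T.card : ℝ) =
      - ∑ T ∈ (univ : Finset (Finset (Fin r))).erase univ, g T / (r.choose T.card : ℝ) := by
    rw [powerset_univ, ← sum_neg_distrib]
    apply sum_nbij' (fun T => Tᶜ) (fun T => Tᶜ)
    · intro T hT
      rw [mem_erase] at hT ⊢
      refine ⟨fun h => hT.1 ?_, mem_univ _⟩
      rwa [compl_eq_univ_iff] at h
    · intro T hT
      rw [mem_erase] at hT ⊢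
      refine ⟨fun h => hT.1 ?_, mem_univ _⟩
      rwa [compl_eq_empty_iff] at h
    · intro T _; exact compl_compl T
    · intro T _; exact compl_compl T
    · intro T _
      rw [card_compl, Fintype.card_fin, Nat.choose_symm (by simpa using card_le_univ T), neg_div]
  rw [e1, e2] at h3
  linarith

/-- the number of sets of `m` indices disjoint from `A` -/
lemma card_disjoint {r : ℕ} (A : Finset (Fin r)) (m : ℕ) :
    ((univ : Finset (Finset (Fin r))).filter fun T => T.card = m ∧ Disjoint T A).card =
      (r - A.card).choose m := by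
  have : ((univ : Finset (Finset (Fin r))).filter fun T => T.card = m ∧ Disjoint T A) =
      powersetCard m Aᶜ := by
    ext T
    rw [mem_filter, mem_powersetCard, ← le_compl_iff_disjoint_right]
    simp only [mem_univ, true_and]
    exact and_comm
  rw [this, card_powersetCard, card_compl, Fintype.card_fin]

lemma card_all {r : ℕ} (m : ℕ) :
    ((univ : Finset (Finset (Fin r))).filter fun T => T.card = m).card = r.choose m := by
  simpa using card_disjoint (∅ : Finset (Fin r)) m

/-- one place: the average cost -/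
lemma avg_one {n r : ℕ} (hr : n + 2 ≤ r) (A : Finset (Fin r)) (hA1 : 1 ≤ A.card) (hA2 : A.card ≤ n) :
    ∑ T ∈ (univ : Finset (Finset (Fin r))).erase univ,
      (if A.card + T.card = n + 2 ∧ ¬ Disjoint T A then (1 : ℝ) else 0) / (r.choose T.card : ℝ) =
      1 - share n r A.card := by
  set m := n + 2 - A.card with hm
  have hch : 0 < (r.choose m : ℝ) := by exact_mod_cast Nat.choose_pos (by omega)
  have e1 : ∑ T ∈ (univ : Finset (Finset (Fin r))).erase univ,
      (if A.card + T.card = n + 2 ∧ ¬ Disjoint T A then (1 : ℝ) else 0) / (r.choose T.card : ℝ) =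
      ∑ T : Finset (Fin r), (if A.card + T.card = n + 2 ∧ ¬ Disjoint T A then (1 : ℝ) else 0) /
        (r.choose T.card : ℝ) := by
    rw [← add_sum_erase (univ : Finset (Finset (Fin r))) _ (mem_univ univ), if_neg, zero_div, zero_add]
    rintro ⟨h, _⟩
    rw [card_univ, Fintype.card_fin] at h
    omega
  rw [e1]
  have e2 : ∀ T : Finset (Fin r), (if A.card + T.card = n + 2 ∧ ¬ Disjoint T A then (1 : ℝ) else 0) /
      (r.choose T.card : ℝ) = (if T.card = m then (1 : ℝ) else 0) / (r.choose m : ℝ) -
        (if T.card = m ∧ Disjoint T A then (1 : ℝ) else 0) / (r.choose m : ℝ) := by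
    intro T
    by_cases h : T.card = m
    · have h' : A.card + T.card = n + 2 := by omega
      by_cases hd : Disjoint T A
      · simp [h, hd]
      · simp [h, hd, show A.card + m = n + 2 by omega]
    · have h' : ¬ A.card + T.card = n + 2 := by omega
      simp [h, h']
  rw [sum_congr rfl (fun T _ => e2 T), sum_sub_distrib, ← sum_div, ← sum_div, sum_boole, sum_boole,
    card_all, card_disjoint, div_self hch.ne']
  rfl

variable {K : Type*} [Field K] [NumberField K] {n r : ℕ}

/-- the places outside `S0` which have to be known at the start -/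
noncomputable def Qf (a : Fin r → Fin (n + 1) → K) (S0 : Finset (FinitePlace K)) (l : List (Fin r))
    (x : Fin (n + 1) → K) : Finset (FinitePlace K) :=
  (pl a x \ S0).filter fun v => ∃ k, (tp a x v).card + k = n + 2 ∧ ¬ Disjoint (l.take k).toFinset (tp a x v)

/-- the places which are found at step `k` -/
noncomputable def Gf (a : Fin r → Fin (n + 1) → K) (S0 : Finset (FinitePlace K)) (l : List (Fin r))
    (x : Fin (n + 1) → K) (k : ℕ) : Finset (FinitePlace K) :=
  (pl a x \ S0).filter fun v => (tp a x v).card + k = n + 2 ∧ Disjoint (l.take k).toFinset (tp a x v)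

/-- the places known after `k` steps -/
noncomputable def Rf (a : Fin r → Fin (n + 1) → K) (S0 : Finset (FinitePlace K)) (l : List (Fin r))
    (x : Fin (n + 1) → K) : ℕ → Finset (FinitePlace K)
  | 0 => Qf a S0 l x
  | k + 1 => Rf a S0 l x k ∪ Gf a S0 l x k

lemma tp_card_pos {a : Fin r → Fin (n + 1) → K} (ha0 : ∀ i, a i ≠ 0) {S0 : Finset (FinitePlace K)}
    {x : Fin (n + 1) → K} (hx : x ≠ 0) (hl : ∀ i, lin (a i) x ≠ 0) {v : FinitePlace K}
    (hv : v ∈ pl a x \ S0) : 1 ≤ (tp a x v).card := by
  rw [mem_sdiff, mem_pl ha0 hx hl] at hv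
  obtain ⟨⟨i, hi⟩, _⟩ := hv
  exact card_pos.2 ⟨i, mem_filter.2 ⟨mem_univ _, hi⟩⟩

/-- an order of the forms with a small cost -/
theorem order_choice (hr : n + 2 ≤ r) (a : Fin r → Fin (n + 1) → K) (ha0 : ∀ i, a i ≠ 0)
    (S0 : Finset (FinitePlace K))
    (hs2 : ∀ v ∉ S0, ∀ x : Fin (n + 1) → K, x ≠ 0 → (univ.filter fun i => Meets (a i) x v).card ≤ n)
    {x : Fin (n + 1) → K} (hx : x ≠ 0) (hl : ∀ i, lin (a i) x ≠ 0) :
    ∃ l : {l : List (Fin r) // l.Nodup}, l.1.toFinset = univ ∧
      ∑ v ∈ Qf a S0 l.1 x, Real.log (NN v) ≤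
        ∑ v ∈ pl a x \ S0, (1 - share n r (tp a x v).card) * Real.log (NN v) := by
  obtain ⟨l, h1, h2, h3⟩ := exists_order (r := r) (fun T => ∑ v ∈ pl a x \ S0,
    (if (tp a x v).card + T.card = n + 2 ∧ ¬ Disjoint T (tp a x v) then (1 : ℝ) else 0) * Real.log (NN v))
  refine ⟨⟨l, h1⟩, h2, ?_⟩
  have hlen : l.length = r := by
    rw [← List.toFinset_card_of_nodup h1, h2, card_univ, Fintype.card_fin]
  have hc : ∀ k ≤ r, (l.take k).toFinset.card = k := by
    intro k hk
    rw [List.toFinset_card_of_nodup (h1.sublist (List.take_sublist _ l)), List.length_take, hlen]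
    omega
  -- the cost
  have hcost : ∑ v ∈ Qf a S0 l x, Real.log (NN v) ≤ ∑ k ∈ range r, ∑ v ∈ pl a x \ S0,
      (if (tp a x v).card + (l.take k).toFinset.card = n + 2 ∧ ¬ Disjoint (l.take k).toFinset (tp a x v)
        then (1 : ℝ) else 0) * Real.log (NN v) := by
    rw [sum_comm]
    unfold Qf
    rw [sum_filter]
    apply sum_le_sum
    intro v hv
    have hnn : ∀ k ∈ range r, 0 ≤ (if (tp a x v).card + (l.take k).toFinset.card = n + 2 ∧
        ¬ Disjoint (l.take k).toFinset (tp a x v) then (1 : ℝ) else 0) * Real.log (NN v) := by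
      intro k _
      apply mul_nonneg _ (log_NN_nonneg v)
      split_ifs <;> norm_num
    split_ifs with hq
    · obtain ⟨k, hk1, hk2⟩ := hq
      have h4 := tp_card_pos ha0 hx hl hv
      have hkr : k < r := by omega
      refine le_trans ?_ (single_le_sum hnn (mem_range.2 hkr))
      rw [hc k hkr.le, if_pos ⟨hk1, hk2⟩, one_mul]
    · exact sum_nonneg hnn
  -- the average
  have havg : ∑ T ∈ (univ : Finset (Finset (Fin r))).erase univ, (∑ v ∈ pl a x \ S0,
      (if (tp a x v).card + T.card = n + 2 ∧ ¬ Disjoint T (tp a x v) then (1 : ℝ) else 0) *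
        Real.log (NN v)) / (r.choose T.card : ℝ) =
      ∑ v ∈ pl a x \ S0, (1 - share n r (tp a x v).card) * Real.log (NN v) := by
    simp_rw [sum_div]
    rw [sum_comm]
    apply sum_congr rfl
    intro v hv
    rw [← avg_one hr (tp a x v) (tp_card_pos ha0 hx hl hv) (by
      unfold tp
      exact hs2 v (mem_sdiff.1 hv).2 x hx), sum_mul]
    apply sum_congr rfl
    intro T _
    ring
  rw [havg] at h3
  exact hcost.trans h3

/-- the places known after `k` steps contain all places at which the first `k` forms are no units -/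
lemma unit_of_notMem2 {a : Fin r → Fin (n + 1) → K} (ha0 : ∀ i, a i ≠ 0) {S0 : Finset (FinitePlace K)}
    (hs1 : ∀ v ∉ S0, ∀ i, sv v (a i) = 1)
    (hs2 : ∀ v ∉ S0, ∀ x : Fin (n + 1) → K, x ≠ 0 → (univ.filter fun i => Meets (a i) x v).card ≤ n)
    {l : List (Fin r)} {x : Fin (n + 1) → K} (hx : x ≠ 0) (hl : ∀ i, lin (a i) x ≠ 0)
    (k : ℕ) {v : FinitePlace K} (hv : v ∉ Rf a S0 l x k ∪ S0) {i : Fin r} (hi : i ∈ l.take k) :
    v (lin (a i) x) = sv v x := by
  rw [mem_union, not_or] at hv
  apply not_meets (hs1 v hv.2 i)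
  intro hm
  apply hv.1
  have hpl : v ∈ pl a x \ S0 := mem_sdiff.2 ⟨(mem_pl ha0 hx hl v).2 ⟨i, hm⟩, hv.2⟩
  have hti : i ∈ tp a x v := mem_filter.2 ⟨mem_univ _, hm⟩
  have hmono : ∀ m, Qf a S0 l x ⊆ Rf a S0 l x m := by
    intro m
    induction m with
    | zero => exact Subset.refl _
    | succ m ih => exact ih.trans subset_union_left
  have hG : ∀ m j, j < m → Gf a S0 l x j ⊆ Rf a S0 l x m := by
    intro m
    induction m with
    | zero => intro j hj; omega
    | succ m ih =>
      intro j hj
      rcases Nat.lt_succ_iff_lt_or_eq.1 hj with h | h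
      · exact (ih j h).trans subset_union_left
      · subst h
        exact subset_union_right
  have hcard : (tp a x v).card ≤ n := by
    unfold tp
    exact hs2 v hv.2 x hx
  obtain ⟨j, hj⟩ : ∃ j, (tp a x v).card + j = n + 2 := ⟨n + 2 - (tp a x v).card, by omega⟩
  by_cases hd : Disjoint (l.take j).toFinset (tp a x v)
  · have hjk : j < k := by
      by_contra hle
      push Not at hle
      have h1 : i ∈ l.take j := (List.take_sublist_take_left hle).subset hi
      exact Finset.disjoint_left.1 hd (List.mem_toFinset.2 h1) hti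
    exact hG k j hjk (mem_filter.2 ⟨hpl, hj, hd⟩)
  · exact hmono k (mem_filter.2 ⟨hpl, j, hj, hd⟩)

lemma Rf_subset (a : Fin r → Fin (n + 1) → K) (S0 : Finset (FinitePlace K)) (l : List (Fin r))
    (x : Fin (n + 1) → K) (k : ℕ) : Rf a S0 l x k ⊆ pl a x \ S0 := by
  induction k with
  | zero => exact filter_subset _ _
  | succ k ih => exact union_subset ih (filter_subset _ _)

end Pool.Agent.H84.VJ
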