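import Mathlib
import Pool.Agent.H84.VJ.B
import Pool.Agent.H84.VH.E1

/-!
# The points with a given order of the forms and given places at the start
-/

set_option autoImplicit false

open NumberField Height Finset LinearAlgebra.Projectivization
open scoped Classical

namespace Pool.Agent.H84.VJ

open Pool.Agent.H57R3.VJ Pool.Agent.H84.VH

variable {K : Type*} [Field K] [NumberField K] {n r : ℕ}

/-- the possible sets of places found at one step -/
lemma Gf_card (a : Fin r → Fin (n + 1) → K) (S1 : Finset (FinitePlace K)) (l : List (Fin r)) (k : ℕ)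
    (PP : Finset (ℙ K (Fin (n + 1) → K))) (Z : ℝ) (hZ : 1 ≤ Z)
    (h : ∀ A : Finset (Fin r), A.card + k = n + 2 → Disjoint (l.take k).toFinset A →
      ((PP.image fun P => GG a S1 A P.rep).card : ℝ) ≤ Z) :
    ((PP.image fun P => Gf a S1 l P.rep k).card : ℝ) ≤ Z ^ (2 ^ r) := by
  set F : Finset (Finset (Fin r)) := univ.filter fun A => A.card + k = n + 2 ∧
    Disjoint (l.take k).toFinset A with hF
  have hG : ∀ P : ℙ K (Fin (n + 1) → K), Gf a S1 l P.rep k =
      (univ : Finset F).biUnion fun A => GG a S1 A P.rep := by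
    intro P
    ext v
    unfold Gf GG
    rw [mem_biUnion, mem_filter]
    constructor
    · rintro ⟨h1, h2, h3⟩
      exact ⟨⟨tp a P.rep v, mem_filter.2 ⟨mem_univ _, h2, h3⟩⟩, mem_univ _, mem_filter.2 ⟨h1, rfl⟩⟩
    · rintro ⟨A, _, h2⟩
      obtain ⟨h3, h4⟩ := mem_filter.1 h2
      obtain ⟨_, h5, h6⟩ := mem_filter.1 A.2
      rw [h4]
      exact ⟨h3, h5, h6⟩
  have hsub : (PP.image fun P => Gf a S1 l P.rep k) ⊆
      (Fintype.piFinset fun A : F => PP.image fun P => GG a S1 A P.rep).image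
        (fun f => (univ : Finset F).biUnion f) := by
    intro u hu
    obtain ⟨P, hP, rfl⟩ := mem_image.1 hu
    rw [mem_image]
    refine ⟨fun A => GG a S1 A P.rep, ?_, (hG P).symm⟩
    rw [Fintype.mem_piFinset]
    intro A
    exact mem_image_of_mem _ hP
  calc ((PP.image fun P => Gf a S1 l P.rep k).card : ℝ) ≤
        ((Fintype.piFinset fun A : F => PP.image fun P => GG a S1 A P.rep).card : ℝ) := by
          exact_mod_cast (card_le_card hsub).trans card_image_le
    _ = ∏ A : F, ((PP.image fun P => GG a S1 A P.rep).card : ℝ) := by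
          rw [Fintype.card_piFinset, Nat.cast_prod]
    _ ≤ ∏ _A : F, Z := by
          apply prod_le_prod
          · intro A _; exact Nat.cast_nonneg _
          · intro A _
            obtain ⟨_, h5, h6⟩ := mem_filter.1 A.2
            exact h A h5 h6
    _ = Z ^ F.card := by rw [Finset.prod_const, card_univ, Fintype.card_coe]
    _ ≤ Z ^ (2 ^ r) := by
          apply pow_le_pow_right₀ hZ
          refine (card_le_univ _).trans ?_
          rw [Fintype.card_finset, Fintype.card_fin]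

/-- the points with a given order of the forms and given places at the start -/
theorem fiber_bound2 (a : Fin r → Fin (n + 1) → K) (ha0 : ∀ i, a i ≠ 0) (hr : n + 1 ≤ r)
    (S1 : Finset (FinitePlace K)) (hs1 : ∀ v ∉ S1, ∀ i, sv v (a i) = 1)
    (hs2 : ∀ v ∉ S1, ∀ x : Fin (n + 1) → K, x ≠ 0 → (univ.filter fun i => Meets (a i) x v).card ≤ n)
    (B X V δ C5 : ℝ) (hδ : 0 < δ) (hB : 1 ≤ B) (hC5 : 0 < C5)
    (hX : X = C5 * B ^ δ * V ^ δ) (hX1 : 1 ≤ X)
    (hstep : ∀ A I : Finset (Fin r), A.Nonempty → I.Nonempty → Disjoint I A → A.card + I.card = n + 2 →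
      ∀ Q : Finset (FinitePlace K),
      ∀ PP : Finset (ℙ K (Fin (n + 1) → K)), (∀ P ∈ PP, (∀ i, lin (a i) P.rep ≠ 0) ∧
        ¬ Spec a P.rep ∧ mulHeight P.rep ≤ B ∧ (∀ v ∉ Q, ∀ i ∈ I, v (lin (a i) P.rep) = sv v P.rep)) →
      ((PP.image fun P => GG a S1 A P.rep).card : ℝ) ≤
        (C5 * B ^ δ * (∏ v ∈ Q, NN v) ^ δ) ^ (r + 1))
    (hpt : ∀ I : Finset (Fin r), I.card = n + 1 → ∀ Q : Finset (FinitePlace K),
      ∀ PP : Finset (ℙ K (Fin (n + 1) → K)), (∀ P ∈ PP, (∀ i, lin (a i) P.rep ≠ 0) ∧ mulHeight P.rep ≤ B ∧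
        ∀ v ∉ Q, ∀ i ∈ I, v (lin (a i) P.rep) = sv v P.rep) →
      (PP.card : ℝ) ≤ (C5 * B ^ δ * (∏ v ∈ Q, NN v) ^ δ) ^ (n + 1))
    (l : List (Fin r)) (hnd : l.Nodup) (hlu : l.toFinset = univ) (Q0 : Finset (FinitePlace K))
    (PF : Finset (ℙ K (Fin (n + 1) → K)))
    (hPF : ∀ P ∈ PF, (∀ i, lin (a i) P.rep ≠ 0) ∧ ¬ Spec a P.rep ∧ mulHeight P.rep ≤ B ∧
      Qf a S1 l P.rep = Q0 ∧ ∏ v ∈ (pl a P.rep \ S1) ∪ S1, NN v ≤ V) :
    (PF.card : ℝ) ≤ (X ^ ((r + 1) * 2 ^ r + 2)) ^ (n + 1) := by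
  have hlen : l.length = r := by
    rw [← List.toFinset_card_of_nodup hnd, hlu, card_univ, Fintype.card_fin]
  have hZ1 : 1 ≤ X ^ (r + 1) := one_le_pow₀ hX1
  have hZ2 : 1 ≤ (X ^ (r + 1)) ^ (2 ^ r) := one_le_pow₀ hZ1
  have hRprod : ∀ P ∈ PF, ∀ k, ∏ v ∈ Rf a S1 l P.rep k ∪ S1, NN v ≤ V := by
    intro P hP k
    have hsub : Rf a S1 l P.rep k ∪ S1 ⊆ (pl a P.rep \ S1) ∪ S1 :=
      union_subset_union (Rf_subset a S1 l P.rep k) (Subset.refl _)
    refine le_trans ?_ (hPF P hP).2.2.2.2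
    rw [← prod_sdiff hsub]
    apply le_mul_of_one_le_left (prod_nonneg fun v _ => (NN_pos v).le)
    exact Finset.one_le_prod fun v _ => by linarith [two_le_NN v]
  have hXT : ∀ T : Finset (FinitePlace K), ∏ v ∈ T, NN v ≤ V →
      C5 * B ^ δ * (∏ v ∈ T, NN v) ^ δ ≤ X := by
    intro T hT
    rw [hX]
    apply mul_le_mul_of_nonneg_left _ (by positivity)
    exact Real.rpow_le_rpow (prod_nonneg fun v _ => (NN_pos v).le) hT hδ.le
  have hT0 : ∀ T : Finset (FinitePlace K), 0 ≤ C5 * B ^ δ * (∏ v ∈ T, NN v) ^ δ := by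
    intro T
    have : 0 ≤ ∏ v ∈ T, NN v := prod_nonneg fun v _ => (NN_pos v).le
    positivity
  -- the number of sets of known places
  have hRimg : ((PF.image fun P => Rf a S1 l P.rep (n + 1)).card : ℝ) ≤
      ((X ^ (r + 1)) ^ (2 ^ r)) ^ (n + 1) := by
    refine card_images PF (fun P k => Rf a S1 l P.rep k)
      (fun P k => Gf a S1 l P.rep k) (fun s t => s ∪ t) (fun P k => rfl) _ hZ2 (n + 1)
      ?_ ?_ (n + 1) le_rfl
    · intro P hP P' hP'
      show Qf a S1 l P.rep = Qf a S1 l P'.rep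
      rw [(hPF P hP).2.2.2.1, (hPF P' hP').2.2.2.1]
    · intro k hk T
      apply Gf_card a S1 l k _ _ hZ1
      intro A hA hd
      rcases Nat.eq_zero_or_pos k with hk0 | hk0
      · subst hk0
        have hsub : ((PF.filter fun P => Rf a S1 l P.rep 0 = T).image fun P =>
            GG a S1 A P.rep) ⊆ {∅} := by
          intro G hG
          obtain ⟨P, hP, rfl⟩ := mem_image.1 hG
          rw [mem_singleton]
          unfold GG
          rw [filter_eq_empty_iff]
          intro v hv hu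
          have h1 := hs2 v (mem_sdiff.1 hv).2 P.rep P.rep_nonzero
          have h2 : (tp a P.rep v).card = n + 2 := by rw [hu]; omega
          unfold tp at h2
          omega
        have h1 : ((PF.filter fun P => Rf a S1 l P.rep 0 = T).image fun P =>
            GG a S1 A P.rep).card ≤ 1 := card_le_card hsub
        exact le_trans (by exact_mod_cast h1) hZ1
      · have hIcard : (l.take k).toFinset.card = k := by
          rw [List.toFinset_card_of_nodup (hnd.sublist (List.take_sublist _ l)), List.length_take, hlen]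
          omega
        have hAne : A.Nonempty := by rw [← card_pos]; omega
        have hIne : (l.take k).toFinset.Nonempty := by rw [← card_pos, hIcard]; exact hk0
        rcases (PF.filter fun P => Rf a S1 l P.rep k = T).eq_empty_or_nonempty with hemp | ⟨P1, hP1⟩
        · rw [hemp, image_empty, card_empty, Nat.cast_zero]
          linarith
        · have hT : ∏ v ∈ T ∪ S1, NN v ≤ V := by
            obtain ⟨h1, h2⟩ := mem_filter.1 hP1
            rw [← h2]
            exact hRprod P1 h1 k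
          have h1 := hstep A (l.take k).toFinset hAne hIne hd (by rw [hIcard]; exact hA) (T ∪ S1)
            (PF.filter fun P => Rf a S1 l P.rep k = T) (by
            intro P hP
            obtain ⟨h1, h2⟩ := mem_filter.1 hP
            obtain ⟨g1, g2, g3, _⟩ := hPF P h1
            refine ⟨g1, g2, g3, ?_⟩
            intro v hv i hi
            rw [← h2] at hv
            exact unit_of_notMem2 ha0 hs1 hs2 P.rep_nonzero g1 k hv (List.mem_toFinset.1 hi))
          exact h1.trans (pow_le_pow_left₀ (hT0 _) (hXT _ hT) _)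
  -- the points with given sets of places
  have hpts : ∀ T ∈ PF.image (fun P => Rf a S1 l P.rep (n + 1)),
      (PF.filter fun P => Rf a S1 l P.rep (n + 1) = T).card ≤ ⌊X ^ (n + 1)⌋₊ := by
    intro T hT
    apply Nat.le_floor
    obtain ⟨P1, hP1, hT1⟩ := mem_image.1 hT
    have hT : ∏ v ∈ T ∪ S1, NN v ≤ V := by
      rw [← hT1]
      exact hRprod P1 hP1 (n + 1)
    have hIcard : (l.take (n + 1)).toFinset.card = n + 1 := by
      rw [List.toFinset_card_of_nodup (hnd.sublist (List.take_sublist _ l)), List.length_take, hlen]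
      omega
    have h1 := hpt (l.take (n + 1)).toFinset hIcard (T ∪ S1)
      (PF.filter fun P => Rf a S1 l P.rep (n + 1) = T) (by
        intro P hP
        obtain ⟨k1, k2⟩ := mem_filter.1 hP
        obtain ⟨g1, g2, g3, _⟩ := hPF P k1
        refine ⟨g1, g3, ?_⟩
        intro v hv i hi
        rw [← k2] at hv
        exact unit_of_notMem2 ha0 hs1 hs2 P.rep_nonzero g1 (n + 1) hv (List.mem_toFinset.1 hi))
    exact h1.trans (pow_le_pow_left₀ (hT0 _) (hXT _ hT) _)
  have htotal := card_le_mul_card_image PF ⌊X ^ (n + 1)⌋₊ hpts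
  calc (PF.card : ℝ) ≤ ((⌊X ^ (n + 1)⌋₊ * (PF.image fun P => Rf a S1 l P.rep (n + 1)).card : ℕ) : ℝ) := by
        exact_mod_cast htotal
    _ = (⌊X ^ (n + 1)⌋₊ : ℝ) * ((PF.image fun P => Rf a S1 l P.rep (n + 1)).card : ℝ) := by
        push_cast; rfl
    _ ≤ X ^ (n + 1) * ((X ^ (r + 1)) ^ (2 ^ r)) ^ (n + 1) :=
        mul_le_mul (Nat.floor_le (by positivity)) hRimg (Nat.cast_nonneg _) (by positivity)
    _ = (X ^ ((r + 1) * 2 ^ r + 1)) ^ (n + 1) := by rw [← mul_pow, ← pow_mul]; congr 1; ring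
    _ ≤ (X ^ ((r + 1) * 2 ^ r + 2)) ^ (n + 1) := by
        apply pow_le_pow_left₀ (by positivity)
        exact pow_le_pow_right₀ hX1 (by omega)

end Pool.Agent.H84.VJ
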