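import Mathlib
import Pool.Agent.H84.VJ.C
import Pool.Agent.H84.VH.H

/-!
# The number of exceptions off the special hyperplanes of the subarrangements
-/

set_option autoImplicit false

open NumberField Height Finset LinearAlgebra.Projectivization
open scoped Classical

namespace Pool.Agent.H84.VJ

open Pool.Agent.H57R3.VJ Pool.Agent.H84.VH

section
variable {K : Type*} [Field K] [NumberField K] {n r : ℕ}

/-- the weighted number of the places, counted with the number of forms that meet the point -/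
lemma type_sum {a : Fin r → Fin (n + 1) → K} (ha0 : ∀ i, a i ≠ 0) {S1 : Finset (FinitePlace K)} {c : ℝ}
    (hc : ∀ i, Real.log (((n + 1 : ℕ) : ℝ) ^ (Module.finrank ℚ K) * mulHeight (a i)) ≤ c)
    {x : Fin (n + 1) → K} (hx : x ≠ 0) (hl : ∀ i, lin (a i) x ≠ 0) {h : ℝ}
    (hh : Real.log (mulHeight x) ≤ h) :
    ∑ v ∈ pl a x \ S1, ((tp a x v).card : ℝ) * Real.log (NN v) ≤ r * (c + h) := by
  have e1 : ∀ v ∈ pl a x \ S1, ((tp a x v).card : ℝ) * Real.log (NN v) =
      ∑ i : Fin r, if Meets (a i) x v then Real.log (NN v) else 0 := by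
    intro v _
    rw [← sum_filter, sum_const, nsmul_eq_mul]
    rfl
  rw [sum_congr rfl e1, sum_comm]
  calc ∑ i : Fin r, ∑ v ∈ pl a x \ S1, (if Meets (a i) x v then Real.log (NN v) else 0) ≤
      ∑ _i : Fin r, (c + h) := by
        apply sum_le_sum
        intro i _
        rw [← sum_filter]
        have hm0 : 0 < mulHeight (a i) := by positivity
        have hm1 : 0 < mulHeight x := by positivity
        have hn1 : (0:ℝ) < ((n + 1 : ℕ) : ℝ) := by positivity
        have hf := fmt (ha0 i) hx (hl i) ((pl a x \ S1).filter fun v => Meets (a i) x v)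
          (fun v hv => (mem_filter.1 hv).2)
        rw [← Real.log_prod (fun v _ => (NN_pos v).ne')]
        calc Real.log _ ≤ Real.log (((n + 1 : ℕ) : ℝ) ^ (Module.finrank ℚ K) * mulHeight (a i) * mulHeight x) :=
              Real.log_le_log (prod_pos fun v _ => NN_pos v) hf
          _ = Real.log (((n + 1 : ℕ) : ℝ) ^ (Module.finrank ℚ K) * mulHeight (a i)) + Real.log (mulHeight x) :=
              Real.log_mul (by positivity) hm1.ne'
          _ ≤ c + h := add_le_add (hc i) hh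
    _ = r * (c + h) := by rw [sum_const, card_univ, Fintype.card_fin, nsmul_eq_mul]

/-- the special points lie on finitely many hyperplanes -/
theorem spec_proper {a : Fin r → Fin (n + 1) → K} (ha : GenPos a) (hr : n + 1 ≤ r) :
    ∃ F : Finset (Fin (n + 1) → K), (∀ b ∈ F, b ≠ 0) ∧
      ∀ x : Fin (n + 1) → K, Spec a x → ∃ b ∈ F, lin b x = 0 := by
  have hex : ∀ A I : Finset (Fin r), ∃ b : Fin (n + 1) → K, A.Nonempty → I.Nonempty → Disjoint A I →
      A.card + I.card = n + 2 → b ≠ 0 ∧ (∃ c : Fin r → K, b = ∑ i ∈ A, c i • a i) ∧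
        ∃ c : Fin r → K, b = ∑ i ∈ I, c i • a i := by
    intro A I
    by_cases h : A.Nonempty ∧ I.Nonempty ∧ Disjoint A I ∧ A.card + I.card = n + 2
    · obtain ⟨hA, hI, hd, hc⟩ := h
      have hA1 : 1 ≤ A.card := card_pos.2 hA
      have hI1 : 1 ≤ I.card := card_pos.2 hI
      have hnot : ¬ LinearIndependent K (fun i : (A ∪ I : Finset (Fin r)) => a i) := by
        intro h
        have := h.fintype_card_le_finrank
        rw [Module.finrank_fin_fun, Fintype.card_coe, card_union_of_disjoint hd] at this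
        omega
      rw [Fintype.not_linearIndependent_iff] at hnot
      obtain ⟨c, hc0, i0, hi0⟩ := hnot
      set d : Fin r → K := fun i => if h : i ∈ A ∪ I then c ⟨i, h⟩ else 0 with hd'
      have hsum : ∑ i ∈ A, d i • a i + ∑ i ∈ I, d i • a i = 0 := by
        rw [← sum_union hd, ← hc0, ← sum_coe_sort (A ∪ I)]
        apply sum_congr rfl
        intro i _
        rw [hd']
        simp
      refine ⟨∑ i ∈ A, d i • a i, fun _ _ _ _ => ⟨?_, ⟨d, rfl⟩, ⟨fun i => - d i, ?_⟩⟩⟩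
      · intro h0
        have h1 := indep_le ha hr A (by omega) d h0
        have h2 := indep_le ha hr I (by omega) d (by rw [h0, zero_add] at hsum; exact hsum)
        apply hi0
        have h3 : d i0 = c i0 := by rw [hd']; simp
        rw [← h3]
        rcases mem_union.1 i0.2 with h | h
        · exact h1 _ h
        · exact h2 _ h
      · simp only [neg_smul, sum_neg_distrib]
        exact eq_neg_of_add_eq_zero_left hsum
    · exact ⟨0, fun h1 h2 h3 h4 => absurd ⟨h1, h2, h3, h4⟩ h⟩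
  choose b hb using hex
  refine ⟨((univ : Finset (Finset (Fin r) × Finset (Fin r))).filter fun p => p.1.Nonempty ∧ p.2.Nonempty ∧
    Disjoint p.1 p.2 ∧ p.1.card + p.2.card = n + 2).image (fun p => b p.1 p.2), ?_, ?_⟩
  · intro b' hb'
    obtain ⟨p, hp, rfl⟩ := mem_image.1 hb'
    obtain ⟨_, h1, h2, h3, h4⟩ := mem_filter.1 hp
    exact (hb p.1 p.2 h1 h2 h3 h4).1
  · rintro x ⟨A, I, y, z, hA, hI, hd, hc, rfl, h1, h2⟩
    refine ⟨b A I, mem_image_of_mem (fun p : Finset (Fin r) × Finset (Fin r) => b p.1 p.2)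
      (mem_filter.2 ⟨mem_univ (A, I), hA, hI, hd, hc⟩), ?_⟩
    obtain ⟨_, ⟨c1, hc1⟩, ⟨c2, hc2⟩⟩ := hb A I hA hI hd hc
    have e1 : lin (b A I) y = 0 := by
      rw [hc1, lin_sum]
      exact sum_eq_zero fun i hi => by rw [h1 i hi, mul_zero]
    have e2 : lin (b A I) z = 0 := by
      rw [hc2, lin_sum]
      exact sum_eq_zero fun i hi => by rw [h2 i hi, mul_zero]
    have h6 : lin (b A I) (y + z) = lin (b A I) y + lin (b A I) z := by
      simp [lin, mul_add, sum_add_distrib]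
    rw [h6, e1, e2, add_zero]

theorem off_spec {a : Fin r → Fin (n + 1) → K} (ha : GenPos a) (hr : n + 2 ≤ r)
    (S : Finset (FinitePlace K)) (θ C : ℝ) (hθ : 0 ≤ θ) {α β δ : ℝ} (hα : 0 ≤ α) (hβ : 0 ≤ β)
    (hg : ∀ k : ℕ, 1 ≤ k → k ≤ n → 1 - share n r k ≤ α + β * k) (hδ : 0 < δ) :
    ∃ M : ℝ, ∀ B : ℝ, 1 ≤ B → ∀ PP : Finset (ℙ K (Fin (n + 1) → K)),
      (∀ P ∈ PP, (∀ i, lin (a i) P.rep ≠ 0) ∧ ¬ Spec a P.rep ∧ mulHeight P.rep ≤ B ∧
        N1 S a P.rep ≤ θ * Real.log (mulHeight P.rep) + C) →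
      (PP.card : ℝ) ≤ M * B ^ (α * θ + β * r + δ) := by
  have hr1 : n + 1 ≤ r := by omega
  have ha0 := fun i => ha.ne_zero hr1 i
  obtain ⟨S0, hS, hs1, hs2⟩ := bad_exists ha ha0 S
  choose s c d hc hd hrel using all_relations2 a
  -- the bad places
  have hbad : (⋃ A : Finset (Fin r), ⋃ I : Finset (Fin r), ⋃ b ∈ (s A I : Set (Fin (n + 1) → K)),
      ⋃ i : Fin r, {v : FinitePlace K | 1 < v (d A I b i)}).Finite :=
    Set.finite_iUnion fun A => Set.finite_iUnion fun I => (s A I).finite_toSet.biUnion fun b _ =>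
      Set.finite_iUnion fun i => gt_one_fin _
  set S1 : Finset (FinitePlace K) := S0 ∪ hbad.toFinset with hS1
  have hS01 : S0 ⊆ S1 := subset_union_left
  have hSS1 : S ⊆ S1 := hS.trans hS01
  have hs1' : ∀ v ∉ S1, ∀ i, sv v (a i) = 1 := fun v hv => hs1 v fun h => hv (hS01 h)
  have hs2' : ∀ v ∉ S1, ∀ x : Fin (n + 1) → K, x ≠ 0 → (univ.filter fun i => Meets (a i) x v).card ≤ n :=
    fun v hv => hs2 v fun h => hv (hS01 h)
  have hdS : ∀ A I : Finset (Fin r), ∀ v ∉ S1, ∀ b ∈ s A I, ∀ i, v (d A I b i) ≤ 1 := by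
    intro A I v hv b hb i
    by_contra hne
    push Not at hne
    apply hv
    rw [hS1, mem_union, Set.Finite.mem_toFinset]
    right
    simp only [Set.mem_iUnion]
    exact ⟨A, I, b, hb, i, hne⟩
  -- constants
  set κ : ℝ := α * θ + β * r with hκ
  have hr0 : (0 : ℝ) ≤ (r : ℝ) := Nat.cast_nonneg r
  have hκ0 : 0 ≤ κ := add_nonneg (mul_nonneg hα hθ) (mul_nonneg hβ hr0)
  set r' : ℕ := (r + 1) * 2 ^ r with hr'
  set δ' : ℝ := δ / (((n + 1 : ℕ) : ℝ) * ((r' + 2 : ℕ) : ℝ) * (1 + θ)) with hδ'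
  have hn1 : (0 : ℝ) < ((n + 1 : ℕ) : ℝ) := by positivity
  have hr2 : (0 : ℝ) < ((r' + 2 : ℕ) : ℝ) := by positivity
  have hδ'0 : 0 < δ' := by positivity
  have hstepA : ∀ p : Finset (Fin r) × Finset (Fin r), ∃ C : ℝ, 1 ≤ C ∧ (p.2.Nonempty → Disjoint p.2 p.1 →
      ∀ B : ℝ, 1 ≤ B →
      ∀ Q : Finset (FinitePlace K),
      ∀ PP : Finset (ℙ K (Fin (n + 1) → K)), (∀ P ∈ PP, (∀ i, lin (a i) P.rep ≠ 0) ∧
        mulHeight P.rep ≤ B ∧ (∀ v ∉ Q, ∀ i ∈ p.2, v (lin (a i) P.rep) = sv v P.rep) ∧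
        ∃ b ∈ s p.1 p.2, lin b P.rep ≠ 0) →
      ((PP.image fun P => GG a S1 p.1 P.rep).card : ℝ) ≤
        (C * B ^ δ' * (∏ v ∈ Q, NN v) ^ δ') ^ (r + 1)) := by
    intro p
    by_cases hp : p.2.Nonempty ∧ Disjoint p.2 p.1
    · obtain ⟨C, h1, h2⟩ := step2 a ha0 S1 hs1' p.1 p.2 hp.1 hp.2 (s p.1 p.2) (c p.1 p.2) (d p.1 p.2)
        (hc p.1 p.2) (hd p.1 p.2) (hdS p.1 p.2) hδ'0
      exact ⟨C, h1, fun _ _ => h2⟩
    · exact ⟨1, le_rfl, fun h1 h2 => absurd ⟨h1, h2⟩ hp⟩
  choose CA hCA1 hCA using hstepA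
  obtain ⟨C4, hC4, h4⟩ := fiber_card a ha hδ'0
  obtain ⟨C2, hC2, h2⟩ := sets_card K
  set C5 : ℝ := 1 + C4 + ∑ A, CA A with hC5
  have hsumCA : 0 ≤ ∑ A, CA A := sum_nonneg fun A _ => by linarith [hCA1 A]
  have hC51 : 1 ≤ C5 := by linarith
  have hC45 : C4 ≤ C5 := by linarith
  have hC50 : 0 < C5 := by linarith
  have hCA5 : ∀ A, CA A ≤ C5 := by
    intro A
    have : CA A ≤ ∑ A, CA A := single_le_sum (f := CA) (fun B _ => by linarith [hCA1 B]) (mem_univ A)
    linarith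
  set W : ℝ := ∏ v ∈ S1, NN v with hW
  have hW1 : 1 ≤ W := Finset.one_le_prod fun v _ => by linarith [two_le_NN v]
  have hW0 : 0 ≤ W := by linarith
  set cc : ℝ := ∑ i, |Real.log (((n + 1 : ℕ) : ℝ) ^ (Module.finrank ℚ K) * mulHeight (a i))| with hcc
  have hcc0 : 0 ≤ cc := sum_nonneg fun i _ => abs_nonneg _
  have hcci : ∀ i, Real.log (((n + 1 : ℕ) : ℝ) ^ (Module.finrank ℚ K) * mulHeight (a i)) ≤ cc := by
    intro i
    refine (le_abs_self _).trans ?_
    exact single_le_sum (f := fun i => |Real.log (((n + 1 : ℕ) : ℝ) ^ (Module.finrank ℚ K) *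
      mulHeight (a i))|) (fun i _ => abs_nonneg _) (mem_univ i)
  set e0 : ℝ := |C| + (α * |C| + β * (r * cc)) with he0
  have he1 : 0 ≤ α * |C| + β * (r * cc) :=
    add_nonneg (mul_nonneg hα (abs_nonneg C)) (mul_nonneg hβ (mul_nonneg hr0 hcc0))
  have he00 : 0 ≤ e0 := add_nonneg (abs_nonneg C) he1
  set E : ℝ := Real.exp e0 with hE
  have hE1 : 1 ≤ E := Real.one_le_exp he00
  set L : ℝ := (Fintype.card {l : List (Fin r) // l.Nodup} : ℝ) with hL
  refine ⟨L * (C2 * E) * ((C5 * (E * W) ^ δ') ^ (r' + 2)) ^ (n + 1), fun B hB PP hPP => ?_⟩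
  have hB0 : 0 < B := zero_lt_one.trans_le hB
  have hBp : ∀ t : ℝ, 0 < B ^ t := fun t => Real.rpow_pos_of_pos hB0 t
  have hE00 : 0 < E := Real.exp_pos _
  have hlB : 0 ≤ Real.log B := Real.log_nonneg hB
  -- bounds for the products
  have htot : ∀ P ∈ PP, ∑ v ∈ pl a P.rep \ S1, Real.log (NN v) ≤ θ * Real.log B + |C| := by
    intro P hP
    obtain ⟨g1, _, g3, g4⟩ := hPP P hP
    have hlog : Real.log (mulHeight P.rep) ≤ Real.log B := Real.log_le_log (mulHeight_pos _) g3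
    refine (tot_le_N1 ha0 hSS1 P.rep_nonzero g1).trans (g4.trans ?_)
    exact add_le_add (mul_le_mul_of_nonneg_left hlog hθ) (le_abs_self C)
  have hprod : ∀ P ∈ PP, ∏ v ∈ pl a P.rep \ S1, NN v ≤ E * B ^ θ := by
    intro P hP
    have h1 := htot P hP
    rw [← Real.log_prod (fun v _ => (NN_pos v).ne')] at h1
    have hp : 0 < ∏ v ∈ pl a P.rep \ S1, NN v := prod_pos fun v _ => NN_pos v
    rw [← Real.log_le_log_iff hp (mul_pos hE00 (hBp θ)), Real.log_mul hE00.ne' (hBp θ).ne', hE,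
      Real.log_exp, Real.log_rpow hB0]
    linarith
  set Y : ℝ := E * B ^ κ with hY
  have hBκ1 : 1 ≤ B ^ κ := Real.one_le_rpow hB hκ0
  have hBθ1 : 1 ≤ B ^ θ := Real.one_le_rpow hB hθ
  have hY1 : 1 ≤ Y := one_le_mul_of_one_le_of_one_le hE1 hBκ1
  have hchoice : ∀ P : ℙ K (Fin (n + 1) → K), ∃ l : {l : List (Fin r) // l.Nodup},
      P ∈ PP → l.1.toFinset = univ ∧ ∏ v ∈ Qf a S1 l.1 P.rep, NN v ≤ Y := by
    intro P
    by_cases hP : P ∈ PP
    · obtain ⟨g1, _, g3, _⟩ := hPP P hP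
      obtain ⟨l, k1, k2⟩ := order_choice hr a ha0 S1 hs2' P.rep_nonzero g1
      refine ⟨l, fun _ => ⟨k1, ?_⟩⟩
      rw [← Real.log_prod (fun v _ => (NN_pos v).ne')] at k2
      have hp : 0 < ∏ v ∈ Qf a S1 l.1 P.rep, NN v := prod_pos fun v _ => NN_pos v
      rw [← Real.log_le_log_iff hp (mul_pos hE00 (hBp κ)), Real.log_mul hE00.ne' (hBp κ).ne',
        hE, Real.log_exp, Real.log_rpow hB0]
      refine k2.trans ?_
      have hlog : Real.log (mulHeight P.rep) ≤ Real.log B := Real.log_le_log (mulHeight_pos _) g3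
      have hts := type_sum (S1 := S1) ha0 hcci P.rep_nonzero g1 hlog
      calc ∑ v ∈ pl a P.rep \ S1, (1 - share n r (tp a P.rep v).card) * Real.log (NN v) ≤
          ∑ v ∈ pl a P.rep \ S1, (α * Real.log (NN v) +
            β * (((tp a P.rep v).card : ℝ) * Real.log (NN v))) := by
            apply sum_le_sum
            intro v hv
            have h1 := hg (tp a P.rep v).card (tp_card_pos ha0 P.rep_nonzero g1 hv) (by
              unfold tp
              exact hs2' v (mem_sdiff.1 hv).2 P.rep P.rep_nonzero)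
            have h2 := mul_le_mul_of_nonneg_right h1 (log_NN_nonneg v)
            linarith
        _ = α * ∑ v ∈ pl a P.rep \ S1, Real.log (NN v) +
            β * ∑ v ∈ pl a P.rep \ S1, ((tp a P.rep v).card : ℝ) * Real.log (NN v) := by
            rw [sum_add_distrib, ← mul_sum, ← mul_sum]
        _ ≤ α * (θ * Real.log B + |C|) + β * (r * (cc + Real.log B)) :=
            add_le_add (mul_le_mul_of_nonneg_left (htot P hP) hα) (mul_le_mul_of_nonneg_left hts hβ)
        _ = (α * |C| + β * (r * cc)) + κ * Real.log B := by rw [hκ]; ring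
        _ ≤ e0 + κ * Real.log B := by
            rw [he0]
            linarith [abs_nonneg C]
    · exact ⟨⟨[], List.nodup_nil⟩, fun h => absurd h hP⟩
  choose g hgP using hchoice
  -- the first code
  set Φ : ℙ K (Fin (n + 1) → K) → {l : List (Fin r) // l.Nodup} × Finset (FinitePlace K) :=
    fun P => (g P, Qf a S1 (g P).1 P.rep) with hΦ
  have hΦcard : ((PP.image Φ).card : ℝ) ≤ L * (C2 * Y) := by
    have hsub : PP.image Φ ⊆ (univ : Finset {l : List (Fin r) // l.Nodup}) ×ˢ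
        (PP.image fun P => Qf a S1 (g P).1 P.rep) := by
      intro u hu
      obtain ⟨P, hP, rfl⟩ := mem_image.1 hu
      rw [mem_product]
      exact ⟨mem_univ _, mem_image_of_mem _ hP⟩
    have h3 := card_le_card hsub
    rw [card_product, card_univ] at h3
    have h5 : ((PP.image fun P => Qf a S1 (g P).1 P.rep).card : ℝ) ≤ C2 * Y := by
      apply h2 Y hY1
      intro Q hQ
      obtain ⟨P, hP, rfl⟩ := mem_image.1 hQ
      exact (hgP P hP).2
    calc ((PP.image Φ).card : ℝ) ≤ ((Fintype.card {l : List (Fin r) // l.Nodup} *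
          (PP.image fun P => Qf a S1 (g P).1 P.rep).card : ℕ) : ℝ) := by exact_mod_cast h3
      _ = L * ((PP.image fun P => Qf a S1 (g P).1 P.rep).card : ℝ) := by push_cast; rfl
      _ ≤ _ := mul_le_mul_of_nonneg_left h5 (Nat.cast_nonneg _)
  set X : ℝ := C5 * B ^ δ' * (E * B ^ θ * W) ^ δ' with hX
  have hBδ1 : 1 ≤ B ^ δ' := Real.one_le_rpow hB hδ'0.le
  have hEBW : 1 ≤ E * B ^ θ * W :=
    one_le_mul_of_one_le_of_one_le (one_le_mul_of_one_le_of_one_le hE1 hBθ1) hW1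
  have hEBWδ : 1 ≤ (E * B ^ θ * W) ^ δ' := Real.one_le_rpow hEBW hδ'0.le
  have hX1 : 1 ≤ X :=
    one_le_mul_of_one_le_of_one_le (one_le_mul_of_one_le_of_one_le hC51 hBδ1) hEBWδ
  have hXT0 : ∀ Q : Finset (FinitePlace K), 0 ≤ ∏ v ∈ Q, NN v := fun Q =>
    prod_nonneg fun v _ => (NN_pos v).le
  -- the fibres
  have hfib : ∀ u ∈ PP.image Φ, (PP.filter fun P => Φ P = u).card ≤ ⌊(X ^ (r' + 2)) ^ (n + 1)⌋₊ := by
    intro u hu
    apply Nat.le_floor
    obtain ⟨P0, hP0, hu0⟩ := mem_image.1 hu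
    refine fiber_bound2 a ha0 hr1 S1 hs1' hs2' B X (E * B ^ θ * W) δ' C5
      hδ'0 hB hC50 hX hX1 ?_ ?_ (g P0).1 (g P0).2 (hgP P0 hP0).1 (Qf a S1 (g P0).1 P0.rep) _ ?_
    · intro A I hA hI hIA hcard Q PP' hPP'
      refine (hCA (A, I) hI hIA B hB Q PP' fun P hP => ?_).trans ?_
      · obtain ⟨g1, g2, g3, g4⟩ := hPP' P hP
        exact ⟨g1, g3, g4, exists_rel2 hA hI hIA.symm hcard (hrel A I) g2⟩
      · have h0 := hXT0 Q
        have h1 : 0 ≤ CA (A, I) := zero_le_one.trans (hCA1 (A, I))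
        apply pow_le_pow_left₀ (mul_nonneg (mul_nonneg h1 (hBp δ').le) (Real.rpow_nonneg h0 _))
        apply mul_le_mul_of_nonneg_right _ (Real.rpow_nonneg h0 _)
        exact mul_le_mul_of_nonneg_right (hCA5 (A, I)) (hBp δ').le
    · intro I hI Q PP' hPP'
      refine (h4 B hB I hI Q PP' hPP').trans ?_
      have h0 := hXT0 Q
      apply pow_le_pow_left₀ (mul_nonneg (mul_nonneg hC4.le (hBp δ').le) (Real.rpow_nonneg h0 _))
      apply mul_le_mul_of_nonneg_right _ (Real.rpow_nonneg h0 _)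
      exact mul_le_mul_of_nonneg_right hC45 (Real.rpow_nonneg hB0.le _)
    · intro P hP
      obtain ⟨hP1, hP2⟩ := mem_filter.1 hP
      rw [← hu0] at hP2
      simp only [hΦ, Prod.mk.injEq] at hP2
      obtain ⟨g1, g2, g3, g4⟩ := hPP P hP1
      refine ⟨g1, g2, g3, ?_, ?_⟩
      · have := hP2.2
        rw [hP2.1] at this
        exact this
      · rw [prod_union sdiff_disjoint]
        exact mul_le_mul_of_nonneg_right (hprod P hP1) hW0
  have htot2 := card_le_mul_card_image PP ⌊(X ^ (r' + 2)) ^ (n + 1)⌋₊ hfib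
  exact final_calc B E W C5 C2 L X Y κ θ δ δ' n r' hB0 hE00 (zero_lt_one.trans_le hW1)
    hθ hδ' hX hY hX1 _ _ htot2 hΦcard

end

end Pool.Agent.H84.VJ
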