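import Mathlib
import Pool.Agent.H84.VJ.D
import Pool.Graph.R_seed8.TH905.VF.Prox
import Pool.Graph.R_seed8.H57R3.VJ.L

/-!
# Algebraic points of Fermat intersections, off the special hyperplanes
-/

set_option autoImplicit false

namespace Pool.Agent.H84.VJ

open NumberField IsDedekindDomain Height LinearAlgebra.Projectivization Pool.Agent.TH905.VF
open scoped Classical

open Pool.Agent.H57R3.VJ (lin GenPos N1 sv Meets bad_exists fin_of_bdd)

/-- the exceptional points off the special hyperplanes -/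
def E3 {k : Type} [Field k] [NumberField k] {n q : ℕ} (S : Finset (HeightOneSpectrum (𝓞 k)))
    (a : Fin q → Fin (n + 1) → k) (θ c B : ℝ) : Set (ℙ k (Fin (n + 1) → k)) :=
  {P | (∀ i, lin (a i) P.rep ≠ 0) ∧ P.mulHeight ≤ B ∧
    (∃ (m : ℕ) (L : Type) (_ : Field L) (_ : NumberField L) (_ : Algebra k L) (y : Fin q → L) (t : L),
      m ≠ 0 ∧ t ≠ 0 ∧ (∀ i, y i ^ m = t * algebraMap k L (lin (a i) P.rep)) ∧
      ld k L + c < (θ * m - q) * ht k y + prox S y) ∧ ¬ Spec a P.rep}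

lemma rep_height {K : Type*} [Field K] [NumberField K] {ι : Type*} [Finite ι]
    (P : ℙ K (ι → K)) : P.mulHeight = mulHeight P.rep := by
  conv_lhs => rw [← P.mk_rep]
  rw [Projectivization.mulHeight_mk]

theorem off_main (k : Type) [Field k] [NumberField k] (n q : ℕ) (hq : n + 2 ≤ q)
    (a : Fin q → Fin (n + 1) → k)
    (ha : ∀ I : Finset (Fin q), I.card = n + 1 → LinearIndependent k (fun i : I => a i))
    (S : Finset (HeightOneSpectrum (𝓞 k))) (θ c α β δ : ℝ) (hθ : 0 ≤ θ) (hα : 0 ≤ α) (hβ : 0 ≤ β)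
    (hg : ∀ j : ℕ, 1 ≤ j → j ≤ n → 1 - share n q j ≤ α + β * j) (hδ : 0 < δ) :
    ∃ M : ℝ, ∀ B : ℝ, 1 ≤ B →
      (E3 S a θ c B).Finite ∧ ((E3 S a θ c B).ncard : ℝ) ≤ M * B ^ (α * θ + β * q + δ) := by
  have hq1 : n + 1 ≤ q := by omega
  have ha0 : ∀ i, a i ≠ 0 := GenPos.ne_zero ha hq1
  obtain ⟨S0, hS, hs1, hs2⟩ := bad_exists (a := a) ha ha0 (S.image FinitePlace.mk)
  -- the height of the values
  have hne : Nonempty (Fin (n + 1)) := ⟨0⟩
  obtain ⟨Ca, hCa⟩ : ∃ Ca : ℝ, ∀ x : Fin (n + 1) → k,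
      logHeight (fun i => lin (a i) x) ≤ Ca + logHeight x := by
    refine ⟨totalWeight k * Real.log (Nat.card (Fin (n + 1))) +
      logHeight (fun p : Fin q × Fin (n + 1) => a p.1 p.2), fun x => ?_⟩
    exact logHeight_linearMap_apply_le (fun p : Fin q × Fin (n + 1) => a p.1 p.2) x
  obtain ⟨M, hM⟩ := off_spec (K := k) (a := a) ha hq S0 θ (θ * Ca - c) hθ hα hβ hg hδ
  refine ⟨M, fun B hB => fin_of_bdd _ _ fun F hF => hM B hB F fun P hP => ?_⟩
  obtain ⟨hl, hB', ⟨m, L, _, _, _, y, t, hm, ht', hy, hv⟩, hsp⟩ := hF hP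
  refine ⟨hl, hsp, rep_height P ▸ hB', ?_⟩
  have hP0 : P.rep ≠ 0 := P.rep_nonzero
  have hyne : ∀ i, y i ≠ 0 := by
    intro i h0
    have h3 := hy i
    rw [h0, zero_pow hm] at h3
    have h4 : algebraMap k L (lin (a i) P.rep) ≠ 0 := by
      rw [Ne, map_eq_zero]
      exact hl i
    exact mul_ne_zero ht' h4 h3.symm
  refine N1_le hq1 ha0 S0 hs1 hs2 P.rep hP0 hl _ fun R hR => ?_
  have h3 := key' (k := k) (by omega) m hm (fun i => lin (a i) P.rep) y hyne t ht' hy S R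
    (fun v hv' => ⟨fun hvS => (hR v hv').1 (hS (Finset.mem_image_of_mem _ hvS)), (hR v hv').2⟩)
  have h4 := ht_pow (k := k) m (fun i => lin (a i) P.rep) y t ht' hy
  have h5 := hCa P.rep
  have h6 : Real.log (mulHeight P.rep) = logHeight P.rep := by
    rw [logHeight_eq_log_mulHeight]
  rw [h6]
  have h7 : θ * (m * ht k y) ≤ θ * (Ca + logHeight P.rep) := by
    rw [h4]
    exact mul_le_mul_of_nonneg_left h5 hθ
  nlinarith

end Pool.Agent.H84.VJ
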